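import Mathlib

/-!
# Complex interpolation of Lipschitz, Gateaux differentiable (in the real sense) maps

Negative answer to Q1 of MP_754066_an: the bound with the constant `max M₀ M₁` fails, already for a
bounded *real-linear* map between two-dimensional spaces.
`A₀ = ℓ^∞(2)`, `A₁ = ℓ²(2)`, `B₀ = ℓ¹(2)`, `B₁ = ℓ²(2)` with the inclusion `b ↦ (5/7) b`, `θ = 1/2`
and `U a = (Re a₀ + Re a₁, Re a₀ - Re a₁)`.
-/

set_option autoImplicit false

open Filter Topology Complex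

noncomputable section

namespace Pool.Agent.Results.MP_754066_an.RealLinearCounterexample

/-- `(f, g)` with bound `N`: `f` belongs to Calderon's space `𝓕(A₀, A₁)` of the couple given by the
inclusion `ι : A₁ → A₀` (so `A₀ + A₁ = A₀`), `g` is its boundary value on the line `re z = 1`,
read in `A₁`, and the norm of `f` in `𝓕(A₀, A₁)` is at most `N`. -/
structure Calderon {A₀ A₁ : Type} [NormedAddCommGroup A₀] [NormedSpace ℂ A₀]
    [NormedAddCommGroup A₁] [NormedSpace ℂ A₁] (ι : A₁ →L[ℂ] A₀)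
    (f : ℂ → A₀) (g : ℝ → A₁) (N : ℝ) : Prop where
  cont : ContinuousOn f {z | 0 ≤ z.re ∧ z.re ≤ 1}
  bdd : ∃ C : ℝ, ∀ z : ℂ, 0 ≤ z.re → z.re ≤ 1 → ‖f z‖ ≤ C
  holo : DifferentiableOn ℂ f {z | 0 < z.re ∧ z.re < 1}
  cont1 : Continuous g
  eq1 : ∀ t : ℝ, f (1 + t * I) = ι (g t)
  lim0 : Tendsto (fun t : ℝ => f (t * I)) (cocompact ℝ) (𝓝 0)
  lim1 : Tendsto g (cocompact ℝ) (𝓝 0)
  le0 : ∀ t : ℝ, ‖f (t * I)‖ ≤ N
  le1 : ∀ t : ℝ, ‖g t‖ ≤ N

/-- `a` belongs to the complex interpolation space `[A₀, A₁]_θ`. -/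
def InInterp {A₀ A₁ : Type} [NormedAddCommGroup A₀] [NormedSpace ℂ A₀]
    [NormedAddCommGroup A₁] [NormedSpace ℂ A₁] (ι : A₁ →L[ℂ] A₀) (θ : ℝ) (a : A₀) : Prop :=
  ∃ (f : ℂ → A₀) (g : ℝ → A₁) (N : ℝ), Calderon ι f g N ∧ f θ = a

/-- The norm of `a` in the complex interpolation space `[A₀, A₁]_θ`. -/
def interpNorm {A₀ A₁ : Type} [NormedAddCommGroup A₀] [NormedSpace ℂ A₀]
    [NormedAddCommGroup A₁] [NormedSpace ℂ A₁] (ι : A₁ →L[ℂ] A₀) (θ : ℝ) (a : A₀) : ℝ :=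
  sInf {N : ℝ | ∃ (f : ℂ → A₀) (g : ℝ → A₁), Calderon ι f g N ∧ f θ = a}

/-- The assertion of Q1. The continuous inclusions are the injective bounded linear maps
`ιA : A₁ → A₀` and `ιB : B₁ → B₀`. -/
def Assertion : Prop :=
  ∀ (A₀ A₁ B₀ B₁ : Type)
    [NormedAddCommGroup A₀] [NormedSpace ℂ A₀] [CompleteSpace A₀]
    [NormedAddCommGroup A₁] [NormedSpace ℂ A₁] [CompleteSpace A₁]
    [NormedAddCommGroup B₀] [NormedSpace ℂ B₀] [CompleteSpace B₀]
    [NormedAddCommGroup B₁] [NormedSpace ℂ B₁] [CompleteSpace B₁]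
    (ιA : A₁ →L[ℂ] A₀) (ιB : B₁ →L[ℂ] B₀), Function.Injective ιA → Function.Injective ιB →
    ∀ (θ : ℝ), 0 < θ → θ < 1 → ∀ (U : A₀ → B₀) (M₀ M₁ : ℝ),
      (∀ a b : A₀, ‖U a - U b‖ ≤ M₀ * ‖a - b‖) →
      (∀ a : A₁, ∃ b : B₁, U (ιA a) = ιB b ∧ ‖b‖ ≤ M₁ * ‖a‖) →
      (∀ a : A₀, ∃ L : A₀ →L[ℝ] B₀, ∀ h : A₀,
        Tendsto (fun t : ℝ => t⁻¹ • (U (a + t • h) - U a)) (𝓝[≠] 0) (𝓝 (L h))) →
      ∀ a : A₀, InInterp ιA θ a →
        InInterp ιB θ (U a) ∧ interpNorm ιB θ (U a) ≤ max M₀ M₁ * interpNorm ιA θ a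

/-! ### The analytic building blocks -/

/-- damping factor -/
def E (z : ℂ) : ℂ := cexp ((z ^ 2 - 1 / 4) / 1000)

/-- `q ^ (2 z)` -/
def P (q : ℝ) (z : ℂ) : ℂ := cexp (2 * z * (Real.log q : ℂ))

theorem contE : Continuous E := by unfold E; fun_prop

theorem contP (q : ℝ) : Continuous (P q) := by unfold P; fun_prop

theorem diffE : Differentiable ℂ E := by unfold E; fun_prop

theorem diffP (q : ℝ) : Differentiable ℂ (P q) := by unfold P; fun_prop

theorem normE (z : ℂ) : ‖E z‖ = Real.exp ((z.re ^ 2 - z.im ^ 2 - 1 / 4) / 1000) := by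
  unfold E
  rw [Complex.norm_exp]
  congr 1
  have : ((z ^ 2 - 1 / 4) / 1000 : ℂ) = (((1 : ℝ) / 1000 : ℝ) : ℂ) * (z ^ 2 - ((1 / 4 : ℝ) : ℂ)) := by
    push_cast; ring
  rw [this, Complex.re_ofReal_mul, Complex.sub_re, Complex.ofReal_re, sq, Complex.mul_re]
  ring

theorem normP (q : ℝ) (z : ℂ) : ‖P q z‖ = Real.exp (2 * z.re * Real.log q) := by
  unfold P
  rw [Complex.norm_exp]
  congr 1
  have : (2 * z * (Real.log q : ℂ)) = (((2 * Real.log q : ℝ)) : ℂ) * z := by push_cast; ring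
  rw [this, Complex.re_ofReal_mul]
  ring

theorem normP0 (q : ℝ) (z : ℂ) (hz : z.re = 0) : ‖P q z‖ = 1 := by
  rw [normP, hz]; simp

theorem normP1 (q : ℝ) (hq : 0 < q) (z : ℂ) (hz : z.re = 1) : ‖P q z‖ = q ^ 2 := by
  rw [normP, hz, mul_one, two_mul, Real.exp_add, Real.exp_log hq]; ring

theorem normP_le (q : ℝ) (hq : 0 < q) (hq1 : q ≤ 1) (z : ℂ) (hz : 0 ≤ z.re) : ‖P q z‖ ≤ 1 := by
  rw [normP, Real.exp_le_one_iff]
  have := Real.log_nonpos hq.le hq1
  nlinarith [mul_nonneg hz (neg_nonneg.2 this)]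

theorem P_half (q : ℝ) (hq : 0 < q) : P q ((1 / 2 : ℝ) : ℂ) = (q : ℂ) := by
  unfold P
  have : (2 * (((1 / 2 : ℝ)) : ℂ) * (Real.log q : ℂ)) = ((Real.log q : ℝ) : ℂ) := by
    push_cast; ring
  rw [this, ← Complex.ofReal_exp, Real.exp_log hq]

theorem E_half : E ((1 / 2 : ℝ) : ℂ) = 1 := by
  unfold E
  have : (((((1 / 2 : ℝ)) : ℂ) ^ 2 - 1 / 4) / 1000 : ℂ) = 0 := by push_cast; norm_num
  rw [this, Complex.exp_zero]

theorem exp_small : Real.exp (3 / 4000) ≤ 1001 / 1000 := by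
  have h := Real.add_one_le_exp (-(3 / 4000 : ℝ))
  have h2 : Real.exp (3 / 4000) * Real.exp (-(3 / 4000 : ℝ)) = 1 := by
    rw [← Real.exp_add]; norm_num
  have h3 := Real.exp_pos (3 / 4000 : ℝ)
  nlinarith

theorem normE_le (z : ℂ) (h0 : 0 ≤ z.re) (h1 : z.re ≤ 1) : ‖E z‖ ≤ 1001 / 1000 := by
  rw [normE]
  refine le_trans (Real.exp_le_exp.2 ?_) exp_small
  nlinarith [sq_nonneg z.im]

theorem normE0 (t : ℝ) : ‖E (t * I)‖ ≤ 1 := by
  rw [normE, Real.exp_le_one_iff]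
  simp
  nlinarith [sq_nonneg t]

theorem gauss : Tendsto (fun t : ℝ => Real.exp ((1 - t ^ 2 - 1 / 4) / 1000)) (cocompact ℝ) (𝓝 0) := by
  refine Real.tendsto_exp_atBot.comp ?_
  have h1 : Tendsto (fun t : ℝ => t ^ 2) (cocompact ℝ) atTop := by
    have := (tendsto_pow_atTop (two_ne_zero)).comp (tendsto_norm_cocompact_atTop (E := ℝ))
    refine this.congr (fun t => ?_)
    simp [Function.comp]
  have h2 : Tendsto (fun t : ℝ => t ^ 2 / 1000) (cocompact ℝ) atTop :=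
    h1.atTop_div_const (by norm_num)
  have h3 : Tendsto (fun t : ℝ => -(t ^ 2 / 1000)) (cocompact ℝ) atBot :=
    tendsto_neg_atTop_atBot.comp h2
  have h4 := h3.atBot_add (tendsto_const_nhds (x := (3 / 4000 : ℝ)))
  refine h4.congr (fun t => by ring)

theorem normE_gauss (z : ℂ) (h : z.re ^ 2 ≤ 1) :
    ‖E z‖ ≤ Real.exp ((1 - z.im ^ 2 - 1 / 4) / 1000) := by
  rw [normE]
  refine Real.exp_le_exp.2 ?_
  linarith

/-! ### The spaces and the map -/

/-- `ℓ^∞(2)` -/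
abbrev A0 : Type := Fin 2 → ℂ

/-- `ℓ²(2)` -/
abbrev A1 : Type := EuclideanSpace ℂ (Fin 2)

/-- `ℓ¹(2)` -/
abbrev B0 : Type := PiLp 1 (fun _ : Fin 2 => ℂ)

/-- the inclusion `ℓ²(2) → ℓ^∞(2)` -/
def ιA : A1 →L[ℂ] A0 :=
  (PiLp.continuousLinearEquiv 2 ℂ (fun _ : Fin 2 => ℂ)).toContinuousLinearMap

/-- the inclusion `ℓ²(2) → ℓ¹(2)`, `b ↦ (5/7) b` -/
def ιB : A1 →L[ℂ] B0 :=
  (5 / 7 : ℂ) • ((PiLp.continuousLinearEquiv 1 ℂ (fun _ : Fin 2 => ℂ)).symm.toContinuousLinearMap.comp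
    ιA)

theorem ιA_apply (x : A1) (i : Fin 2) : ιA x i = x i := rfl

theorem ιB_apply (x : A1) (i : Fin 2) : (ιB x) i = 5 / 7 * x i := rfl

theorem ιA_inj : Function.Injective ιA :=
  (PiLp.continuousLinearEquiv 2 ℂ (fun _ : Fin 2 => ℂ)).injective

theorem ιB_inj : Function.Injective ιB := by
  intro x y h
  ext i
  have := congrArg (fun v : B0 => v i) h
  simp only [ιB_apply] at this
  have h2 : (5 / 7 : ℂ) ≠ 0 := by norm_num
  exact mul_left_cancel₀ h2 this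

/-- the real-linear map `a ↦ (Re a₀ + Re a₁, Re a₀ - Re a₁)` -/
def UL : A0 →ₗ[ℝ] B0 where
  toFun a := WithLp.toLp 1 ![(((a 0).re + (a 1).re : ℝ) : ℂ), (((a 0).re - (a 1).re : ℝ) : ℂ)]
  map_add' a b := by
    ext i
    fin_cases i <;> simp <;> ring
  map_smul' c a := by
    ext i
    fin_cases i <;> simp <;> ring

theorem UL_zero (a : A0) : (UL a) 0 = (((a 0).re + (a 1).re : ℝ) : ℂ) := rfl

theorem UL_one (a : A0) : (UL a) 1 = (((a 0).re - (a 1).re : ℝ) : ℂ) := rfl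

theorem norm_UL (a : A0) : ‖UL a‖ ≤ 2 * ‖a‖ := by
  rw [PiLp.norm_eq_of_L1, Fin.sum_univ_two, UL_zero, UL_one, Complex.norm_real, Complex.norm_real,
    Real.norm_eq_abs, Real.norm_eq_abs]
  have h0 : |(a 0).re| ≤ ‖a‖ := le_trans (Complex.abs_re_le_norm _) (norm_le_pi_norm a 0)
  have h1 : |(a 1).re| ≤ ‖a‖ := le_trans (Complex.abs_re_le_norm _) (norm_le_pi_norm a 1)
  rw [abs_le] at h0 h1
  rcases abs_cases ((a 0).re + (a 1).re) with h | h <;>
    rcases abs_cases ((a 0).re - (a 1).re) with h' | h' <;> rw [h.1, h'.1] <;> linarith [h0.1, h0.2, h1.1, h1.2]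

theorem sq_norm_two (x : A1) : ‖x‖ ^ 2 = ‖x 0‖ ^ 2 + ‖x 1‖ ^ 2 := by
  rw [EuclideanSpace.norm_eq, Real.sq_sqrt (by positivity), Fin.sum_univ_two]

/-! ### Upper bound for the norm of `(1, 2/5)` -/

/-- the test vector -/
def av : A0 := ![1, 2 / 5]

/-- the analytic function -/
def fA (z : ℂ) : A0 := ![E z, E z * P (2 / 5) z]

theorem contfA : Continuous fA := by
  refine continuous_pi (fun i => ?_)
  fin_cases i
  · exact contE
  · exact contE.mul (contP _)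

theorem calA : Calderon ιA fA (fun t => WithLp.toLp 2 (fA (1 + t * I))) (203 / 200) where
  cont := contfA.continuousOn
  bdd := by
    refine ⟨1001 / 1000, fun z h0 h1 => ?_⟩
    rw [pi_norm_le_iff_of_nonneg (by norm_num)]
    intro i
    have hE := normE_le z h0 h1
    have hP := normP_le (2 / 5) (by norm_num) (by norm_num) z h0
    fin_cases i
    · exact hE
    · show ‖E z * P (2 / 5) z‖ ≤ _
      rw [norm_mul]
      nlinarith [norm_nonneg (E z), norm_nonneg (P (2 / 5) z)]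
  holo := by
    refine Differentiable.differentiableOn ?_
    refine differentiable_pi.2 (fun i => ?_)
    fin_cases i
    · exact diffE
    · exact diffE.mul (diffP _)
  cont1 := by
    refine (PiLp.continuous_toLp 2 _).comp (contfA.comp ?_)
    fun_prop
  eq1 := fun t => rfl
  lim0 := by
    refine tendsto_pi_nhds.2 (fun i => ?_)
    refine squeeze_zero_norm (fun t => ?_) gauss
    have hE := normE_gauss (t * I) (by simp)
    have hP := normP_le (2 / 5) (by norm_num) (by norm_num) (t * I) (by simp)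
    have him : ((t : ℂ) * I).im = t := by simp
    rw [him] at hE
    fin_cases i
    · exact hE
    · show ‖E (t * I) * P (2 / 5) (t * I)‖ ≤ _
      rw [norm_mul]
      nlinarith [norm_nonneg (E (t * I)), norm_nonneg (P (2 / 5) (t * I)),
        Real.exp_pos ((1 - t ^ 2 - 1 / 4) / 1000)]
  lim1 := by
    have h1 : Tendsto (fun t : ℝ => fA (1 + t * I)) (cocompact ℝ) (𝓝 0) := by
      refine tendsto_pi_nhds.2 (fun i => ?_)
      refine squeeze_zero_norm (fun t => ?_) gauss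
      have hE := normE_gauss (1 + t * I) (by simp)
      have hP := normP_le (2 / 5) (by norm_num) (by norm_num) (1 + t * I) (by simp)
      have him : ((1 : ℂ) + (t : ℂ) * I).im = t := by simp
      rw [him] at hE
      fin_cases i
      · exact hE
      · show ‖E (1 + t * I) * P (2 / 5) (1 + t * I)‖ ≤ _
        rw [norm_mul]
        nlinarith [norm_nonneg (E (1 + t * I)), norm_nonneg (P (2 / 5) (1 + t * I)),
          Real.exp_pos ((1 - t ^ 2 - 1 / 4) / 1000)]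
    have h2 := ((PiLp.continuous_toLp 2 (fun _ : Fin 2 => ℂ)).tendsto 0).comp h1
    exact h2
  le0 := by
    intro t
    rw [pi_norm_le_iff_of_nonneg (by norm_num)]
    intro i
    have hE := normE0 t
    have hP := normP0 (2 / 5) (t * I) (by simp)
    fin_cases i
    · exact hE.trans (by norm_num)
    · show ‖E (t * I) * P (2 / 5) (t * I)‖ ≤ _
      rw [norm_mul, hP, mul_one]
      exact hE.trans (by norm_num)
  le1 := by
    intro t
    have hE := normE_le (1 + t * I) (by simp) (by simp)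
    have hP := normP1 (2 / 5) (by norm_num) (1 + t * I) (by simp)
    have hsq := sq_norm_two (WithLp.toLp 2 (fA (1 + t * I)))
    have e0 : ‖(WithLp.toLp 2 (fA (1 + t * I)) : A1) 0‖ = ‖E (1 + t * I)‖ := rfl
    have e1 : ‖(WithLp.toLp 2 (fA (1 + t * I)) : A1) 1‖ = ‖E (1 + t * I)‖ * (2 / 5) ^ 2 := by
      rw [← hP, ← norm_mul]; rfl
    rw [e0, e1] at hsq
    refine abs_le_of_sq_le_sq' ?_ (by norm_num) |>.2
    rw [hsq]
    nlinarith [norm_nonneg (E (1 + t * I))]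

theorem normA : InInterp ιA (1 / 2) av ∧ interpNorm ιA (1 / 2) av ≤ 203 / 200 := by
  have hval : fA ((1 / 2 : ℝ) : ℂ) = av := by
    funext i
    fin_cases i
    · show E _ = _
      rw [E_half]; rfl
    · show E _ * P (2 / 5) _ = _
      rw [E_half, P_half _ (by norm_num)]
      simp [av]
  refine ⟨⟨_, _, _, calA, hval⟩, csInf_le ⟨0, ?_⟩ ⟨_, _, calA, hval⟩⟩
  rintro N ⟨f, g, h, -⟩
  exact (norm_nonneg _).trans (h.le1 0)

/-! ### Lower bound for the norm of the image -/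

/-- coordinates on `ℓ¹(2)` as bounded linear functionals -/
def cf (i : Fin 2) : B0 →L[ℂ] ℂ :=
  (ContinuousLinearMap.proj (R := ℂ) (φ := fun _ : Fin 2 => ℂ) i).comp
    (PiLp.continuousLinearEquiv 1 ℂ (fun _ : Fin 2 => ℂ)).toContinuousLinearMap

theorem cf_apply (i : Fin 2) (x : B0) : cf i x = x i := rfl

/-- the scalar test function -/
def hf (f : ℂ → B0) (z : ℂ) : ℂ := cf 0 (f z) + P (3 / 4) z * cf 1 (f z)

theorem lower (N : ℝ) (f : ℂ → B0) (g : ℝ → A1) (h : Calderon ιB f g N)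
    (hv : f ((1 / 2 : ℝ) : ℂ) = UL av) : 204 / 100 ≤ N := by
  have hN : 0 ≤ N := (norm_nonneg _).trans (h.le1 0)
  have hl1 : ∀ x : B0, ‖x‖ = ‖cf 0 x‖ + ‖cf 1 x‖ := fun x => by
    rw [PiLp.norm_eq_of_L1, Fin.sum_univ_two]; rfl
  -- the function is admissible for the three lines theorem
  have hcl : closure (HadamardThreeLines.verticalStrip 0 1) ⊆ {z : ℂ | 0 ≤ z.re ∧ z.re ≤ 1} := by
    refine closure_minimal ?_ ?_
    · intro z hz
      exact ⟨hz.1.le, hz.2.le⟩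
    · exact (isClosed_Icc (a := (0 : ℝ)) (b := 1)).preimage Complex.continuous_re
  have hd : DiffContOnCl ℂ (hf f) (HadamardThreeLines.verticalStrip 0 1) := by
    constructor
    · have h1 : DifferentiableOn ℂ f (HadamardThreeLines.verticalStrip 0 1) :=
        h.holo.mono (fun z hz => ⟨hz.1, hz.2⟩)
      exact ((cf 0).differentiable.comp_differentiableOn h1).add
        ((diffP _).differentiableOn.mul ((cf 1).differentiable.comp_differentiableOn h1))
    · have h1 : ContinuousOn f (closure (HadamardThreeLines.verticalStrip 0 1)) := h.cont.mono hcl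
      exact ((cf 0).continuous.comp_continuousOn h1).add
        ((contP _).continuousOn.mul ((cf 1).continuous.comp_continuousOn h1))
  have hle : ∀ z : ℂ, 0 ≤ z.re → ‖hf f z‖ ≤ ‖f z‖ := by
    intro z hz
    have hP := normP_le (3 / 4) (by norm_num) (by norm_num) z hz
    rw [hl1]
    refine (norm_add_le _ _).trans ?_
    rw [norm_mul]
    nlinarith [norm_nonneg (cf 1 (f z)), norm_nonneg (P (3 / 4) z)]
  have hB : BddAbove ((norm ∘ hf f) '' HadamardThreeLines.verticalClosedStrip 0 1) := by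
    obtain ⟨C, hC⟩ := h.bdd
    refine ⟨C, ?_⟩
    rintro _ ⟨z, hz, rfl⟩
    exact (hle z hz.1).trans (hC z hz.1 hz.2)
  have ha : ∀ z ∈ re ⁻¹' {(0 : ℝ)}, ‖hf f z‖ ≤ N := by
    intro z hz
    have hz0 : z.re = 0 := hz
    have hz' : z = (z.im : ℂ) * I := by
      apply Complex.ext <;> simp [hz0]
    refine (hle z hz0.ge).trans ?_
    rw [hz']
    exact h.le0 z.im
  have hb : ∀ z ∈ re ⁻¹' {(1 : ℝ)}, ‖hf f z‖ ≤ 8196 / 10000 * N := by
    intro z hz
    have hz1 : z.re = 1 := hz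
    have hz' : z = 1 + (z.im : ℂ) * I := by
      apply Complex.ext <;> simp [hz1]
    have hP := normP1 (3 / 4) (by norm_num) z hz1
    have hfz : f z = ιB (g z.im) := by
      conv_lhs => rw [hz']
      exact h.eq1 z.im
    have h0 : ‖cf 0 (f z)‖ = 5 / 7 * ‖(g z.im) 0‖ := by
      rw [hfz, cf_apply, ιB_apply, norm_mul]; norm_num
    have h1 : ‖cf 1 (f z)‖ = 5 / 7 * ‖(g z.im) 1‖ := by
      rw [hfz, cf_apply, ιB_apply, norm_mul]; norm_num
    have hsq := sq_norm_two (g z.im)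
    have hg := h.le1 z.im
    have hstep : ‖hf f z‖ ≤ 5 / 7 * ‖(g z.im) 0‖ + (3 / 4) ^ 2 * (5 / 7 * ‖(g z.im) 1‖) := by
      refine (norm_add_le _ _).trans ?_
      rw [norm_mul, hP, h0, h1]
    refine hstep.trans ?_
    set p := ‖(g z.im) 0‖
    set r := ‖(g z.im) 1‖
    have hp : 0 ≤ p := norm_nonneg _
    have hr : 0 ≤ r := norm_nonneg _
    have hg0 : 0 ≤ ‖g z.im‖ := norm_nonneg _
    refine abs_le_of_sq_le_sq' ?_ (by positivity) |>.2
    have hgg : ‖g z.im‖ ^ 2 ≤ N ^ 2 := by nlinarith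
    nlinarith [sq_nonneg ((3 / 4) ^ 2 * p - r)]
  have key := HadamardThreeLines.norm_le_interp_of_mem_verticalClosedStrip₀₁' (hf f)
    (z := ((1 / 2 : ℝ) : ℂ)) ⟨by norm_num, by norm_num⟩ hd hB ha hb
  have hre : (((1 / 2 : ℝ)) : ℂ).re = 1 / 2 := Complex.ofReal_re _
  rw [hre, show (1 : ℝ) - 1 / 2 = 1 / 2 by norm_num, ← Real.sqrt_eq_rpow, ← Real.sqrt_eq_rpow] at key
  have hval : hf f ((1 / 2 : ℝ) : ℂ) = ((37 / 20 : ℝ) : ℂ) := by
    unfold hf
    rw [hv, P_half _ (by norm_num), cf_apply, cf_apply, UL_zero, UL_one]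
    simp [av]
    norm_num
  rw [hval, Complex.norm_real, Real.norm_eq_abs, abs_of_pos (by norm_num)] at key
  have h1 := Real.mul_self_sqrt hN
  have h2 := Real.mul_self_sqrt (show 0 ≤ 8196 / 10000 * N by positivity)
  have h3 := Real.sqrt_nonneg N
  have h4 := Real.sqrt_nonneg (8196 / 10000 * N)
  have h5 : (37 / 20 : ℝ) * (37 / 20) ≤ N * (8196 / 10000 * N) := by
    calc (37 / 20 : ℝ) * (37 / 20) ≤ (Real.sqrt N * Real.sqrt (8196 / 10000 * N)) *
        (Real.sqrt N * Real.sqrt (8196 / 10000 * N)) :=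
          mul_self_le_mul_self (by norm_num) key
      _ = (Real.sqrt N * Real.sqrt N) * (Real.sqrt (8196 / 10000 * N) *
          Real.sqrt (8196 / 10000 * N)) := by ring
      _ = N * (8196 / 10000 * N) := by rw [h1, h2]
  by_contra hcon
  push Not at hcon
  nlinarith

/-- **Q1 of MP_754066_an, answer: no** (as posed, with real Gateaux derivatives). -/
theorem result : ¬ Assertion := by
  intro H
  have hU : Continuous UL := UL.continuous_of_finiteDimensional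
  have key := H A0 A1 B0 A1 ιA ιB ιA_inj ιB_inj (1 / 2) (by norm_num) (by norm_num) UL 2 2 ?_ ?_ ?_
    av normA.1
  · have h2 : interpNorm ιB (1 / 2) (UL av) ≤ 203 / 100 := by
      refine key.2.trans ?_
      rw [max_self]
      linarith [normA.2]
    have h3 : 204 / 100 ≤ interpNorm ιB (1 / 2) (UL av) := by
      obtain ⟨f, g, N, h, hv⟩ := key.1
      refine le_csInf ⟨N, f, g, h, hv⟩ ?_
      rintro N ⟨f, g, h, hv⟩
      exact lower N f g h hv
    linarith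
  · intro a b
    rw [← map_sub]
    exact norm_UL _
  · intro a
    refine ⟨WithLp.toLp 2 ![(7 / 5 : ℂ) * (((a 0).re + (a 1).re : ℝ) : ℂ),
      (7 / 5 : ℂ) * (((a 0).re - (a 1).re : ℝ) : ℂ)], ?_, ?_⟩
    · ext i
      fin_cases i
      · show (((a 0).re + (a 1).re : ℝ) : ℂ) = 5 / 7 * ((7 / 5 : ℂ) * (((a 0).re + (a 1).re : ℝ) : ℂ))
        ring
      · show (((a 0).re - (a 1).re : ℝ) : ℂ) = 5 / 7 * ((7 / 5 : ℂ) * (((a 0).re - (a 1).re : ℝ) : ℂ))
        ring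
    · refine abs_le_of_sq_le_sq' ?_ (by positivity) |>.2
      rw [sq_norm_two, mul_pow, sq_norm_two]
      have e0 : ‖(WithLp.toLp 2 ![(7 / 5 : ℂ) * (((a 0).re + (a 1).re : ℝ) : ℂ),
          (7 / 5 : ℂ) * (((a 0).re - (a 1).re : ℝ) : ℂ)] : A1) 0‖ = 7 / 5 * |(a 0).re + (a 1).re| := by
        show ‖(7 / 5 : ℂ) * (((a 0).re + (a 1).re : ℝ) : ℂ)‖ = _
        rw [norm_mul, Complex.norm_real, Real.norm_eq_abs]; norm_num
      have e1 : ‖(WithLp.toLp 2 ![(7 / 5 : ℂ) * (((a 0).re + (a 1).re : ℝ) : ℂ),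
          (7 / 5 : ℂ) * (((a 0).re - (a 1).re : ℝ) : ℂ)] : A1) 1‖ = 7 / 5 * |(a 0).re - (a 1).re| := by
        show ‖(7 / 5 : ℂ) * (((a 0).re - (a 1).re : ℝ) : ℂ)‖ = _
        rw [norm_mul, Complex.norm_real, Real.norm_eq_abs]; norm_num
      rw [e0, e1, mul_pow, mul_pow, sq_abs, sq_abs]
      have h0 := Complex.sq_norm (a 0)
      have h1 := Complex.sq_norm (a 1)
      rw [Complex.normSq_apply] at h0 h1
      rw [h0, h1]
      nlinarith [sq_nonneg ((a 0).im), sq_nonneg ((a 1).im), sq_nonneg ((a 0).re),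
        sq_nonneg ((a 1).re)]
  · intro a
    refine ⟨⟨UL, hU⟩, fun h => ?_⟩
    refine tendsto_const_nhds.congr' ?_
    filter_upwards [self_mem_nhdsWithin] with t ht
    have ht' : t ≠ 0 := ht
    rw [map_add, map_smul, add_sub_cancel_left, smul_smul, inv_mul_cancel₀ ht', one_smul]
    rfl

end Pool.Agent.Results.MP_754066_an.RealLinearCounterexample
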